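import Pool.Agent.L0h7.TC.Stm

set_option autoImplicit false
set_option linter.unusedSectionVars false

/-! Connectedness of the covers of the complex of a cubic graph. -/

namespace Pool.Agent.L0h60.TC

open Pool.Agent.L0h7.TC Pool.Agent.L0h7

/-- a parent in a spanning tree of the chart without the two isolated local vertices -/
def par : Fin 25 → Fin 25 :=
  ![12, 12, 13, 15, 15, 16, 18, 18, 19, 12, 12, 12, 12, 12, 12, 12, 12, 15, 12, 12, 13, 12, 12, 12,
    12]

theorem par_par : ∀ l : Fin 25, par (par l) = 12 := by decide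

theorem par_ok : ∀ l : Fin 25, par l ≠ 10 ∧ par l ≠ 11 := by decide

theorem par_th : ∀ l : Fin 25, l ≠ 10 → l ≠ 11 → l ≠ 12 → thN l (par l) ≠ [] := by
  decide +kernel

theorem ex_th {l : Fin 25} (h1 : l ≠ 10) (h2 : l ≠ 11) (h3 : l ≠ 12) : ∃ c, c ∈ th l (par l) := by
  have h := par_th l h1 h2 h3
  rw [← th_N] at h
  have h4 : th l (par l) ≠ [] := fun e => h (by rw [e]; rfl)
  exact List.exists_mem_of_ne_nil _ h4

section
variable {G V : Type} [Group G] [DecidableEq V] {n : V → Fin 3 → V} {γ : V → V → G}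

/-- the sheet of a local vertex in the chart at `v` -/
def sh (n : V → Fin 3 → V) (γ : V → V → G) (v : V) (l : Fin 25) : G :=
  (src l).elim 1 (fun k => γ v (n v k))

theorem sh_none {v : V} {l : Fin 25} (h : src l = none) : sh n γ v l = 1 := by
  unfold sh; rw [h]; rfl

theorem sh_some {v : V} {l : Fin 25} {k : Fin 3} (h : src l = some k) :
    sh n γ v l = γ v (n v k) := by
  unfold sh; rw [h]; rfl

theorem step (hn : Nb n) (hγ : ∀ v w, γ w v = (γ v w)⁻¹) (v : V) (g : G) {a b c : Fin 25}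
    (h : c ∈ th a b) :
    (g * sh n γ v a) * GG γ (phi n v a) (phi n v b) = g * sh n γ v b := by
  unfold GG
  have ha : ∀ l : Fin 25, (phi n v l).1 = fib n v l := fun _ => rfl
  rw [ha, ha]
  rcases hsa : src a with _ | k <;> rcases hsb : src b with _ | k'
  · have h1 : fib n v a = fib n v b := by unfold fib; rw [hsa, hsb]
    rw [if_pos h1, sh_none hsa, sh_none hsb, mul_one]
  · have h1 : fib n v a = v := by unfold fib; rw [hsa]; rfl
    have h2 : fib n v b = n v k' := by unfold fib; rw [hsb]; rfl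
    rw [h1, h2, if_neg (fun e => hn.ne v k' e.symm), sh_none hsa, sh_some hsb, mul_one]
  · have h1 : fib n v a = n v k := by unfold fib; rw [hsa]; rfl
    have h2 : fib n v b = v := by unfold fib; rw [hsb]; rfl
    rw [h1, h2, if_neg (fun e => hn.ne v k e), sh_some hsa, sh_none hsb, hγ v (n v k), mul_one,
      mul_assoc, mul_inv_cancel, mul_one]
  · have h0 : src a = src b := by
      rcases th_fib h with h1 | h1 | h1
      · rw [hsa] at h1; exact absurd h1 (Option.some_ne_none _)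
      · rw [hsb] at h1; exact absurd h1 (Option.some_ne_none _)
      · exact h1
    have h1 : fib n v a = fib n v b := by unfold fib; rw [h0]
    rw [if_pos h1, mul_one]
    unfold sh
    rw [h0]

theorem adj_lift (hn : Nb n) (hγ : ∀ v w, γ w v = (γ v w)⁻¹) (v : V) (g : G) {a b c : Fin 25}
    (h : c ∈ th a b) :
    (CG.cover (edgeGraph (KK n)) (GG γ)).Adj (phi n v a, g * sh n γ v a)
      (phi n v b, g * sh n γ v b) := by
  refine ⟨⟨fun e => (th_ne h).1 (phi_inj hn v e), phi n v c, v, a, b, c, h, rfl⟩, ?_, ?_⟩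
  · exact step hn hγ v g h
  · exact step hn hγ v g (th_swap h)

theorem reach_par (hn : Nb n) (hγ : ∀ v w, γ w v = (γ v w)⁻¹) (v : V) (g : G) {l : Fin 25}
    (h1 : l ≠ 10) (h2 : l ≠ 11) :
    (CG.cover (edgeGraph (KK n)) (GG γ)).Reachable (phi n v l, g * sh n γ v l)
      (phi n v (par l), g * sh n γ v (par l)) := by
  by_cases h3 : l = 12
  · subst h3
    exact SimpleGraph.Reachable.refl _
  · obtain ⟨c, hc⟩ := ex_th h1 h2 h3
    exact (adj_lift hn hγ v g hc).reachable

theorem reach_top (hn : Nb n) (hγ : ∀ v w, γ w v = (γ v w)⁻¹) (v : V) (g : G) {l : Fin 25}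
    (h1 : l ≠ 10) (h2 : l ≠ 11) :
    (CG.cover (edgeGraph (KK n)) (GG γ)).Reachable (phi n v l, g * sh n γ v l)
      ((v, 3), g) := by
  have h3 := reach_par hn hγ v g h1 h2
  have h4 := reach_par hn hγ v g (par_ok l).1 (par_ok l).2
  rw [par_par] at h4
  have h5 : sh n γ v 12 = 1 := sh_none rfl
  rw [h5, mul_one] at h4
  exact h3.trans h4

/-- the local vertex of an index on a neighbour circle -/
def nv (k : Fin 3) (i : Fin 3) : Fin 25 := ⟨3 * k.1 + i.1, by omega⟩

/-- an index of a circle -/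
def ci (i : Fin 3) : Fin 16 := ⟨i.1, by omega⟩

theorem nv_src : ∀ k i : Fin 3, src (nv k i) = some k ∧ idx (nv k i) = ci i ∧ nv k i ≠ 10 ∧
    nv k i ≠ 11 := by decide

theorem phi_nv (v : V) (k i : Fin 3) : phi n v (nv k i) = (n v k, ci i) := by
  unfold phi fib
  rw [(nv_src k i).1, (nv_src k i).2.1]
  rfl

theorem reach_nv (hn : Nb n) (hγ : ∀ v w, γ w v = (γ v w)⁻¹) (v : V) (g : G) (k i : Fin 3) :
    (CG.cover (edgeGraph (KK n)) (GG γ)).Reachable ((n v k, ci i), g * γ v (n v k))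
      ((v, 3), g) := by
  have h := reach_top hn hγ v g (nv_src k i).2.2.1 (nv_src k i).2.2.2
  rw [phi_nv, sh_some (nv_src k i).1] at h
  exact h

theorem phi_pv (v : V) (j : Fin 16) : phi n v (pv j) = (v, j) := by
  unfold phi fib
  rw [(src_pv j).1, (src_pv j).2]
  rfl

theorem pv_ne : ∀ j : Fin 16, j ≠ 1 → j ≠ 2 → pv j ≠ 10 ∧ pv j ≠ 11 := by decide

theorem reach_pv (hn : Nb n) (hγ : ∀ v w, γ w v = (γ v w)⁻¹) (v : V) (g : G) {j : Fin 16}
    (h1 : j ≠ 1) (h2 : j ≠ 2) :
    (CG.cover (edgeGraph (KK n)) (GG γ)).Reachable ((v, j), g) ((v, 3), g) := by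
  have h := reach_top hn hγ v g (pv_ne j h1 h2).1 (pv_ne j h1 h2).2
  rw [phi_pv, sh_none (src_pv j).1, mul_one] at h
  exact h

theorem reach_edge (hn : Nb n) (hγ : ∀ v w, γ w v = (γ v w)⁻¹) (v : V) (g : G) (k : Fin 3) :
    (CG.cover (edgeGraph (KK n)) (GG γ)).Reachable ((v, 3), g)
      ((n v k, 3), g * γ v (n v k)) :=
  (reach_nv hn hγ v g k 0).symm.trans
    (reach_pv (j := ci 0) hn hγ (n v k) (g * γ v (n v k)) (by decide) (by decide))

theorem reach_any (hn : Nb n) (hγ : ∀ v w, γ w v = (γ v w)⁻¹) (x : V × Fin 16) (g : G) :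
    ∃ (w : V) (h : G), (CG.cover (edgeGraph (KK n)) (GG γ)).Reachable (x, g) ((w, 3), h) := by
  obtain ⟨v, j⟩ := x
  by_cases hj : j = 1 ∨ j = 2
  · obtain ⟨l, hl⟩ := hn.symm v 0
    have h1 : ∃ i : Fin 3, ci i = j := by
      rcases hj with rfl | rfl
      · exact ⟨1, rfl⟩
      · exact ⟨2, rfl⟩
    obtain ⟨i, rfl⟩ := h1
    have h2 := reach_nv hn hγ (n v 0) (g * (γ (n v 0) (n (n v 0) l))⁻¹) l i
    rw [inv_mul_cancel_right, hl] at h2
    exact ⟨_, _, h2⟩
  · push Not at hj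
    exact ⟨v, g, reach_pv hn hγ v g hj.1 hj.2⟩

end

theorem s_conn : S_CONN := by
  intro G V _ _ _ n Q γ hn hQ hγ hc
  have key : ∀ (p q : V × G), (CG.cover Q γ).Reachable p q →
      (CG.cover (edgeGraph (KK n)) (GG γ)).Reachable ((p.1, 3), p.2) ((q.1, 3), q.2) := by
    rintro p q ⟨W⟩
    induction W with
    | nil => exact SimpleGraph.Reachable.refl _
    | cons h _ ih =>
      rename_i u v w _
      refine SimpleGraph.Reachable.trans ?_ ih
      obtain ⟨h1, h2, h3⟩ := h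
      obtain ⟨k, hk⟩ := (hQ _ _).1 h1
      have h4 := reach_edge hn hγ u.1 u.2 k
      rw [hk, h2] at h4
      exact h4
  refine (SimpleGraph.connected_iff _).2 ⟨?_, ?_⟩
  · rintro ⟨x, g⟩ ⟨y, h⟩
    obtain ⟨w, a, h1⟩ := reach_any hn hγ x g
    obtain ⟨w', a', h2⟩ := reach_any hn hγ y h
    exact h1.trans ((key (w, a) (w', a') (hc.preconnected _ _)).trans h2.symm)
  · obtain ⟨v, g⟩ := hc.nonempty.some
    exact ⟨((v, 3), g)⟩

theorem s_conn0 : S_CONN0 := by
  intro V _ _ n Q hn hQ hc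
  have h1 : (CG.cover Q (fun _ _ => (1 : Unit))).Connected := by
    refine (SimpleGraph.connected_iff _).2 ⟨?_, ?_⟩
    · rintro ⟨v, ⟨⟩⟩ ⟨w, ⟨⟩⟩
      let f : Q →g CG.cover Q (fun _ _ => (1 : Unit)) :=
        { toFun := fun v => (v, ())
          map_rel' := fun {a b} h => ⟨h, rfl, rfl⟩ }
      exact (hc.preconnected v w).map f
    · obtain ⟨v⟩ := hc.nonempty
      exact ⟨(v, ())⟩
  have h2 := s_conn Unit V n Q (fun _ _ => 1) hn hQ (fun _ _ => rfl) h1
  refine (SimpleGraph.connected_iff _).2 ⟨?_, ?_⟩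
  · intro x y
    let f : CG.cover (edgeGraph (KK n)) (GG fun _ _ => (1 : Unit)) →g edgeGraph (KK n) :=
      { toFun := Prod.fst
        map_rel' := fun {a b} h => h.1 }
    exact (h2.preconnected (x, ()) (y, ())).map f
  · obtain ⟨x, _⟩ := h2.nonempty.some
    exact ⟨x⟩

end Pool.Agent.L0h60.TC
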